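import Mathlib
set_option autoImplicit false

/-! The quantity `ms(G, r)` for a compact group `G`, and the compact group `SO(3)`. -/

namespace Pool.Agent.H617Z.Sym

open MeasureTheory Set TopologicalSpace
open scoped ENNReal

/-- The Haar measure `μ` of the compact group `G` normalised by `μ(G) = 1`. -/
noncomputable def haarProb (G : Type) [Group G] [TopologicalSpace G] [IsTopologicalGroup G]
    [CompactSpace G] [MeasurableSpace G] [BorelSpace G] : Measure G :=
  Measure.haarMeasure (⊤ : PositiveCompacts G)

/-- `A ⊆ G` is symmetric if `A = g A⁻¹ g` for some `g ∈ G`. -/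
def IsSymmetricSet {G : Type} [Group G] (A : Set G) : Prop :=
  ∃ g : G, A = (fun a => g * a⁻¹ * g) '' A

/-- `ms(G, r)`: the supremum of all `ε > 0` such that every measurable `r`-colouring `χ` of `G`
admits a measurable monochromatic symmetric set `B` with `μ(B) ≥ ε`. -/
noncomputable def ms (G : Type) [Group G] [TopologicalSpace G] [IsTopologicalGroup G]
    [CompactSpace G] [MeasurableSpace G] [BorelSpace G] (r : ℕ) : ℝ≥0∞ :=
  sSup {ε : ℝ≥0∞ | 0 < ε ∧ ∀ χ : G → Fin r,
    (∀ i, NullMeasurableSet (χ ⁻¹' {i}) (haarProb G)) →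
      ∃ B : Set G, NullMeasurableSet B (haarProb G) ∧ (∃ i, ∀ x ∈ B, χ x = i) ∧
        IsSymmetricSet B ∧ ε ≤ haarProb G B}

/-- The rotation group `SO(3)`: real orthogonal `3 × 3` matrices of determinant one, with the
subspace topology from the space of matrices. -/
abbrev SO3 : Type := Matrix.specialOrthogonalGroup (Fin 3) ℝ

instance : IsTopologicalGroup SO3 where
  continuous_mul := continuous_mul
  continuous_inv := by
    refine Continuous.subtype_mk (f := fun x : SO3 => star (x : Matrix (Fin 3) (Fin 3) ℝ)) ?_ _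
    exact continuous_subtype_val.star

lemma entry_le (x : SO3) (i j : Fin 3) : |(x : Matrix (Fin 3) (Fin 3) ℝ) i j| ≤ 1 :=
  entry_norm_bound_of_unitary (Matrix.mem_specialOrthogonalGroup_iff.1 x.2).1 i j

instance : CompactSpace SO3 := by
  refine isCompact_iff_compactSpace.1 ?_
  have h1 : IsCompact (Set.pi univ fun _ : Fin 3 => Set.pi univ fun _ : Fin 3 => Icc (-1 : ℝ) 1) :=
    isCompact_univ_pi fun _ => isCompact_univ_pi fun _ => isCompact_Icc
  refine IsCompact.of_isClosed_subset (X := Matrix (Fin 3) (Fin 3) ℝ) h1 ?_ ?_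
  · have : ((Matrix.specialOrthogonalGroup (Fin 3) ℝ : Submonoid _) : Set _) =
        {A : Matrix (Fin 3) (Fin 3) ℝ | A * A.transpose = 1} ∩ {A | A.det = 1} := by
      ext A
      simp [Matrix.mem_specialOrthogonalGroup_iff, Matrix.mem_orthogonalGroup_iff]
    rw [this]
    exact (isClosed_eq (by fun_prop) continuous_const).inter
      (isClosed_eq (by fun_prop) continuous_const)
  · intro A hA i _ j _
    exact abs_le.1 (entry_le ⟨A, hA⟩ i j)

/-- The Borel sets of `SO(3)`. -/
noncomputable instance : MeasurableSpace SO3 := borel SO3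

instance : BorelSpace SO3 := ⟨rfl⟩

end Pool.Agent.H617Z.Sym
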