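import Mathlib
import Pool.Agent.H617Z.SymDefs
set_option autoImplicit false

/-! Lower bound for `ms` by averaging over a compact abelian group of centres. -/

namespace Pool.Agent.H617Z.Sym

open MeasureTheory Set TopologicalSpace Measure
open scoped ENNReal

section general
variable (G : Type) [Group G] [TopologicalSpace G] [IsTopologicalGroup G]
    [CompactSpace G] [MeasurableSpace G] [BorelSpace G]

instance : IsHaarMeasure (haarProb G) := by unfold haarProb; infer_instance

instance : IsProbabilityMeasure (haarProb G) := by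
  constructor
  have := Measure.haarMeasure_self (G := G) (K₀ := ⊤)
  rwa [PositiveCompacts.coe_top] at this

variable [SecondCountableTopology G]

instance : IsMulRightInvariant (haarProb G) := by
  constructor
  intro g
  have hm : Measurable fun x : G => x * g := by fun_prop
  have : IsProbabilityMeasure (map (fun x => x * g) (haarProb G)) :=
    isProbabilityMeasure_map hm.aemeasurable
  have h := haarMeasure_unique (map (fun x => x * g) (haarProb G)) (⊤ : PositiveCompacts G)
  rw [PositiveCompacts.coe_top, measure_univ, one_smul] at h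
  exact h

instance : IsInvInvariant (haarProb G) := by
  constructor
  have : IsProbabilityMeasure (haarProb G).inv :=
    isProbabilityMeasure_map (f := Inv.inv) measurable_inv.aemeasurable
  have h := haarMeasure_unique (haarProb G).inv (⊤ : PositiveCompacts G)
  rw [PositiveCompacts.coe_top, measure_univ, one_smul] at h
  exact h

variable {G}

lemma mp_sig (g : G) : MeasurePreserving (fun x => g * x⁻¹ * g) (haarProb G) (haarProb G) :=
  (measurePreserving_mul_right (haarProb G) g).comp
    ((measurePreserving_mul_left (haarProb G) g).comp (measurePreserving_inv (haarProb G)))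

lemma mp_two (g : G) : MeasurePreserving (fun x => g * x * g) (haarProb G) (haarProb G) :=
  (measurePreserving_mul_right (haarProb G) g).comp (measurePreserving_mul_left (haarProb G) g)

theorem exists_centre {T : Type} [CommGroup T] [TopologicalSpace T] [IsTopologicalGroup T]
    [CompactSpace T] [SecondCountableTopology T] (ι : T →* G) (hι : Continuous ι)
    (key : ∀ x : G, ∃ t, ι t * x * ι t = x⁻¹) (A : Set G) (hA : MeasurableSet A) :
    ∃ g : G, haarProb G A ^ 2 ≤ haarProb G (A ∩ (fun x => g * x⁻¹ * g) ⁻¹' A) := by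
  borelize T
  set μ := haarProb G with hμ
  set ν := haarProb T with hν
  set f : G → ℝ≥0∞ := A.indicator 1 with hf
  have hfm : Measurable f := measurable_one.indicator hA
  have hf1 : ∀ x, f x ≤ 1 := fun x => by
    simp only [hf, indicator]; split_ifs <;> simp
  have hact : Measurable fun p : G × T => ι p.2 * p.1 * ι p.2 := by
    apply Continuous.measurable; fun_prop
  set Ef : G → ℝ≥0∞ := fun x => ∫⁻ t, f (ι t * x * ι t) ∂ν with hEf
  have hEm : Measurable Ef := (hfm.comp hact).lintegral_prod_right'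
  have h1 : ∀ s x, Ef (ι s * x * ι s) = Ef x := by
    intro s x
    simp only [hEf]
    rw [← lintegral_mul_right_eq_self (μ := ν) (fun t => f (ι t * x * ι t)) s]
    refine lintegral_congr fun t => ?_
    congr 1
    nth_rewrite 2 [mul_comm t s]
    simp only [map_mul, mul_assoc]
  have h2 : ∀ x, Ef x⁻¹ = Ef x := by
    intro x
    obtain ⟨t, ht⟩ := key x
    rw [← ht, h1]
  have h3 : ∫⁻ x, f x * Ef x ∂μ = ∫⁻ x, Ef x * Ef x ∂μ := by
    have a1 : ∀ s, ∫⁻ x, f x * Ef x ∂μ = ∫⁻ x, f (ι s * x * ι s) * Ef x ∂μ := by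
      intro s
      have := (mp_two (ι s)).lintegral_comp (f := fun x => f x * Ef x) (hfm.mul hEm)
      simp only [h1] at this
      exact this.symm
    calc ∫⁻ x, f x * Ef x ∂μ = ∫⁻ _ : T, ∫⁻ x, f x * Ef x ∂μ ∂ν := by simp
      _ = ∫⁻ s, ∫⁻ x, f (ι s * x * ι s) * Ef x ∂μ ∂ν := lintegral_congr a1
      _ = ∫⁻ x, ∫⁻ s, f (ι s * x * ι s) * Ef x ∂ν ∂μ := by
        refine (lintegral_lintegral_swap ?_).symm
        exact ((hfm.comp hact).mul (hEm.comp measurable_fst)).aemeasurable
      _ = _ := by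
        refine lintegral_congr fun x => ?_
        rw [lintegral_mul_const]
        exact hfm.comp (Continuous.measurable (by fun_prop))
  have h4 : ∫⁻ x, Ef x ∂μ = μ A := by
    simp only [hEf]
    rw [lintegral_lintegral_swap (f := fun x s => f (ι s * x * ι s)) (hfm.comp hact).aemeasurable]
    have : ∀ s, ∫⁻ x, f (ι s * x * ι s) ∂μ = μ A := by
      intro s
      rw [(mp_two (ι s)).lintegral_comp hfm, hf, lintegral_indicator_one hA]
    simp [this]
  have h5 : μ A ^ 2 ≤ ∫⁻ x, Ef x * Ef x ∂μ := by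
    have := ENNReal.lintegral_mul_le_Lp_mul_Lq μ Real.HolderConjugate.two_two
      hEm.aemeasurable (g := fun _ => 1) aemeasurable_const
    simp only [Pi.mul_apply, mul_one, ENNReal.one_rpow, lintegral_const, measure_univ] at this
    rw [h4] at this
    calc μ A ^ 2 ≤ ((∫⁻ x, Ef x ^ (2 : ℝ) ∂μ) ^ (1 / 2 : ℝ)) ^ 2 := by gcongr
      _ = ∫⁻ x, Ef x ^ (2 : ℝ) ∂μ := by
        rw [← ENNReal.rpow_natCast, ← ENNReal.rpow_mul]; norm_num
      _ = _ := by
        refine lintegral_congr fun x => ?_
        rw [← sq, ← ENNReal.rpow_natCast]; norm_num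
  have hact' : Measurable fun p : G × T => ι p.2 * p.1⁻¹ * ι p.2 := by
    apply Continuous.measurable; fun_prop
  have h6 : ∫⁻ s, ∫⁻ x, f x * f (ι s * x⁻¹ * ι s) ∂μ ∂ν = ∫⁻ x, f x * Ef x ∂μ := by
    rw [← lintegral_lintegral_swap (f := fun x s => f x * f (ι s * x⁻¹ * ι s))
      ((hfm.comp measurable_fst).mul (hfm.comp hact')).aemeasurable]
    refine lintegral_congr fun x => ?_
    rw [← h2 x]
    simp only [hEf]
    rw [← lintegral_const_mul]
    exact hfm.comp (Continuous.measurable (by fun_prop))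
  have h7 : ∀ g : G, ∫⁻ x, f x * f (g * x⁻¹ * g) ∂μ = μ (A ∩ (fun x => g * x⁻¹ * g) ⁻¹' A) := by
    intro g
    rw [← lintegral_indicator_one (hA.inter ((mp_sig g).measurable hA))]
    refine lintegral_congr fun x => ?_
    simp only [hf, indicator, mem_inter_iff, mem_preimage]
    by_cases a : x ∈ A <;> by_cases b : g * x⁻¹ * g ∈ A <;> simp [a, b]
  simp only [h7] at h6
  obtain ⟨s, hs⟩ := exists_lintegral_le (μ := ν)
    (f := fun s => μ (A ∩ (fun x => ι s * x⁻¹ * ι s) ⁻¹' A)) (by
      refine ne_top_of_le_ne_top (b := ∫⁻ _ : T, 1 ∂ν) (by simp) ?_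
      exact lintegral_mono fun s => prob_le_one)
  exact ⟨ι s, by rw [h6, h3] at hs; exact h5.trans hs⟩

theorem le_ms {T : Type} [CommGroup T] [TopologicalSpace T] [IsTopologicalGroup T]
    [CompactSpace T] [SecondCountableTopology T] (ι : T →* G) (hι : Continuous ι)
    (key : ∀ x : G, ∃ t, ι t * x * ι t = x⁻¹) (r : ℕ) (hr : 0 < r) :
    1 / (r : ℝ≥0∞) ^ 2 ≤ ms G r := by
  apply le_sSup
  refine ⟨by simp, fun χ hχ => ?_⟩
  obtain ⟨i, hi⟩ : ∃ i, 1 / (r : ℝ≥0∞) ≤ haarProb G (χ ⁻¹' {i}) := by
    by_contra hcon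
    push Not at hcon
    have h1 : (1 : ℝ≥0∞) ≤ ∑ i, haarProb G (χ ⁻¹' {i}) := by
      have : (univ : Set G) = ⋃ i, χ ⁻¹' {i} := by ext x; simp
      rw [← measure_univ (μ := haarProb G), this]
      exact measure_iUnion_fintype_le _ _
    have h2 : ∑ i, haarProb G (χ ⁻¹' {i}) < ∑ _ : Fin r, 1 / (r : ℝ≥0∞) := by
      have : Nonempty (Fin r) := ⟨⟨0, hr⟩⟩
      exact ENNReal.sum_lt_sum_of_nonempty Finset.univ_nonempty fun i _ => hcon i
    rw [Finset.sum_const, Finset.card_univ, Fintype.card_fin, nsmul_eq_mul, one_div,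
      ENNReal.mul_inv_cancel (by simpa using hr.ne') (by simp)] at h2
    exact absurd h1 (not_le.2 h2)
  obtain ⟨A, hA1, hA2, hA3⟩ := (hχ i).exists_measurable_subset_ae_eq
  obtain ⟨g, hg⟩ := exists_centre ι hι key A hA2
  refine ⟨A ∩ (fun x => g * x⁻¹ * g) ⁻¹' A,
    (hA2.inter ((mp_sig g).measurable hA2)).nullMeasurableSet, ⟨i, fun x hx => hA1 hx.1⟩,
    ⟨g, ?_⟩, ?_⟩
  · ext x
    constructor
    · rintro ⟨h1, h2⟩
      refine ⟨g * x⁻¹ * g, ⟨h2, ?_⟩, ?_⟩
      · simpa [mul_assoc] using h1
      · simp [mul_assoc]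
    · rintro ⟨y, ⟨h1, h2⟩, rfl⟩
      refine ⟨h2, ?_⟩
      simpa [mul_assoc] using h1
  · refine le_trans ?_ hg
    rw [measure_congr hA3, one_div, ENNReal.inv_pow, ← one_div]
    gcongr

end general

end Pool.Agent.H617Z.Sym
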