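import Mathlib
import Pool.Agent.H617Z.SymLower
set_option autoImplicit false

/-! Algebra in `SO(3)` and the lower bound. -/

namespace Pool.Agent.H617Z.Sym

open MeasureTheory Set TopologicalSpace Measure Matrix
open scoped ENNReal

/-- entries -/
abbrev ent (x : SO3) (i j : Fin 3) : ℝ := (x : Matrix (Fin 3) (Fin 3) ℝ) i j

lemma mul_transpose (x : SO3) : (x : Matrix (Fin 3) (Fin 3) ℝ) * (x : Matrix _ _ ℝ)ᵀ = 1 :=
  (mem_orthogonalGroup_iff _ _).1 (mem_specialOrthogonalGroup_iff.1 x.2).1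

lemma transpose_mul (x : SO3) : (x : Matrix (Fin 3) (Fin 3) ℝ)ᵀ * (x : Matrix _ _ ℝ) = 1 :=
  (mem_orthogonalGroup_iff' _ _).1 (mem_specialOrthogonalGroup_iff.1 x.2).1

lemma ent_inv (x : SO3) (i j : Fin 3) : ent x⁻¹ i j = ent x j i := rfl

lemma ent_mul (x y : SO3) (i j : Fin 3) :
    ent (x * y) i j = ent x i 0 * ent y 0 j + ent x i 1 * ent y 1 j + ent x i 2 * ent y 2 j := by
  simp [ent, Matrix.mul_apply, Fin.sum_univ_three]

lemma row_orth (x : SO3) (i j : Fin 3) :
    ent x i 0 * ent x j 0 + ent x i 1 * ent x j 1 + ent x i 2 * ent x j 2 =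
      if i = j then 1 else 0 := by
  have := congrFun (congrFun (mul_transpose x) i) j
  simpa [Matrix.mul_apply, Fin.sum_univ_three, one_apply] using this

lemma col_orth (x : SO3) (i j : Fin 3) :
    ent x 0 i * ent x 0 j + ent x 1 i * ent x 1 j + ent x 2 i * ent x 2 j =
      if i = j then 1 else 0 := by
  have := congrFun (congrFun (transpose_mul x) i) j
  simpa [Matrix.mul_apply, Fin.sum_univ_three, one_apply] using this

lemma adj_eq (x : SO3) : adjugate (x : Matrix (Fin 3) (Fin 3) ℝ) = (x : Matrix _ _ ℝ)ᵀ := by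
  have h1 := mul_adjugate (x : Matrix (Fin 3) (Fin 3) ℝ)
  rw [(mem_specialOrthogonalGroup_iff.1 x.2).2, one_smul] at h1
  calc adjugate (x : Matrix (Fin 3) (Fin 3) ℝ)
      = ((x : Matrix (Fin 3) (Fin 3) ℝ)ᵀ * x) * adjugate (x : Matrix (Fin 3) (Fin 3) ℝ) := by
        rw [transpose_mul, Matrix.one_mul]
    _ = _ := by rw [Matrix.mul_assoc, h1, Matrix.mul_one]

lemma cof (x : SO3) : ent x 0 0 = ent x 1 1 * ent x 2 2 - ent x 1 2 * ent x 2 1 ∧
    ent x 1 1 = ent x 0 0 * ent x 2 2 - ent x 0 2 * ent x 2 0 ∧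
    ent x 2 2 = ent x 0 0 * ent x 1 1 - ent x 0 1 * ent x 1 0 := by
  have h := adj_eq x
  rw [adjugate_fin_three] at h
  have h0 := congrFun (congrFun h 0) 0
  have h1 := congrFun (congrFun h 1) 1
  have h2 := congrFun (congrFun h 2) 2
  simp at h0 h1 h2
  exact ⟨h0.symm, h1.symm, h2.symm⟩

lemma id2 (x : SO3) :
    (ent x 0 0 + ent x 1 1) ^ 2 + (ent x 1 0 - ent x 0 1) ^ 2 = (1 + ent x 2 2) ^ 2 := by
  have h := (cof x).2.2
  have r0 := row_orth x 0 0
  have r1 := row_orth x 1 1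
  have c2 := col_orth x 2 2
  simp only [if_true] at r0 r1 c2
  linear_combination r0 + r1 - c2 - 2 * h

lemma id0 (x : SO3) :
    (ent x 1 1 + ent x 2 2) ^ 2 + (ent x 2 1 - ent x 1 2) ^ 2 = (1 + ent x 0 0) ^ 2 := by
  have h := (cof x).1
  have r2 := row_orth x 2 2
  have r1 := row_orth x 1 1
  have c0 := col_orth x 0 0
  simp only [if_true] at r2 r1 c0
  linear_combination r2 + r1 - c0 - 2 * h

lemma id1 (x : SO3) :
    (ent x 0 0 + ent x 2 2) ^ 2 + (ent x 2 0 - ent x 0 2) ^ 2 = (1 + ent x 1 1) ^ 2 := by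
  have h := (cof x).2.1
  have r2 := row_orth x 2 2
  have r0 := row_orth x 0 0
  have c1 := col_orth x 1 1
  simp only [if_true] at r2 r0 c1
  linear_combination r2 + r0 - c1 - 2 * h

lemma inv_eq_of_trace (y : SO3) (h : ent y 0 0 + ent y 1 1 + ent y 2 2 = -1) : y⁻¹ = y := by
  have a2 : ent y 1 0 = ent y 0 1 := by
    have := id2 y
    have e : ent y 0 0 + ent y 1 1 = -(1 + ent y 2 2) := by linarith
    rw [e] at this
    have : (ent y 1 0 - ent y 0 1) ^ 2 = 0 := by linarith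
    exact sub_eq_zero.1 (pow_eq_zero_iff two_ne_zero |>.1 this)
  have a0 : ent y 2 1 = ent y 1 2 := by
    have := id0 y
    have e : ent y 1 1 + ent y 2 2 = -(1 + ent y 0 0) := by linarith
    rw [e] at this
    have : (ent y 2 1 - ent y 1 2) ^ 2 = 0 := by linarith
    exact sub_eq_zero.1 (pow_eq_zero_iff two_ne_zero |>.1 this)
  have a1 : ent y 2 0 = ent y 0 2 := by
    have := id1 y
    have e : ent y 0 0 + ent y 2 2 = -(1 + ent y 1 1) := by linarith
    rw [e] at this
    have : (ent y 2 0 - ent y 0 2) ^ 2 = 0 := by linarith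
    exact sub_eq_zero.1 (pow_eq_zero_iff two_ne_zero |>.1 this)
  apply Subtype.ext
  ext i j
  show ent y j i = ent y i j
  fin_cases i <;> fin_cases j <;> simp [a0, a1, a2]

/-- rotation about the third axis -/
def rot (c s : ℝ) (h : c ^ 2 + s ^ 2 = 1) : SO3 :=
  ⟨!![c, -s, 0; s, c, 0; 0, 0, 1], by
    rw [mem_specialOrthogonalGroup_iff, mem_orthogonalGroup_iff]
    constructor
    · ext i j
      fin_cases i <;> fin_cases j <;>
        simp [Matrix.mul_apply, Fin.sum_univ_three] <;> nlinarith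
    · rw [det_fin_three]; simp; nlinarith⟩

lemma circ (z : Circle) : (z : ℂ).re ^ 2 + (z : ℂ).im ^ 2 = 1 := by
  have := Circle.normSq_coe z
  rw [Complex.normSq_apply] at this
  linarith

/-- the circle group inside `SO(3)` -/
noncomputable def iota : Circle →* SO3 where
  toFun z := rot (z : ℂ).re (z : ℂ).im (circ z)
  map_one' := by
    apply Subtype.ext
    ext i j
    fin_cases i <;> fin_cases j <;> simp [rot]
  map_mul' z w := by
    apply Subtype.ext
    ext i j
    fin_cases i <;> fin_cases j <;> simp [rot] <;> ring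

lemma iota_cont : Continuous iota := by
  refine Continuous.subtype_mk (f := fun z : Circle =>
    (!![(z : ℂ).re, -(z : ℂ).im, 0; (z : ℂ).im, (z : ℂ).re, 0; 0, 0, 1] :
      Matrix (Fin 3) (Fin 3) ℝ)) ?_ _
  refine continuous_matrix fun i j => ?_
  fin_cases i <;> fin_cases j <;> simp <;> fun_prop

lemma ent_mul_rot (x : SO3) (c s : ℝ) (h : c ^ 2 + s ^ 2 = 1) :
    ent (x * rot c s h) 0 0 = ent x 0 0 * c + ent x 0 1 * s ∧
    ent (x * rot c s h) 0 1 = -(ent x 0 0 * s) + ent x 0 1 * c ∧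
    ent (x * rot c s h) 1 0 = ent x 1 0 * c + ent x 1 1 * s ∧
    ent (x * rot c s h) 1 1 = -(ent x 1 0 * s) + ent x 1 1 * c ∧
    ent (x * rot c s h) 2 2 = ent x 2 2 := by
  simp only [ent_mul]
  simp [ent, rot]

lemma key (x : SO3) : ∃ t, iota t * x * iota t = x⁻¹ := by
  obtain ⟨c, s, h, hcs⟩ : ∃ c s : ℝ, c ^ 2 + s ^ 2 = 1 ∧
      c * (ent x 0 0 + ent x 1 1) - s * (ent x 1 0 - ent x 0 1) = -(1 + ent x 2 2) := by
    have h := id2 x
    by_cases h0 : 1 + ent x 2 2 = 0
    · refine ⟨1, 0, by norm_num, ?_⟩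
      rw [h0] at h ⊢
      have : (ent x 0 0 + ent x 1 1) ^ 2 = 0 := by nlinarith [sq_nonneg (ent x 1 0 - ent x 0 1)]
      rw [pow_eq_zero_iff two_ne_zero |>.1 this]; ring
    · refine ⟨-(ent x 0 0 + ent x 1 1) / (1 + ent x 2 2),
        (ent x 1 0 - ent x 0 1) / (1 + ent x 2 2), ?_, ?_⟩
      · field_simp; linarith
      · field_simp; linarith
  let z : Circle := ⟨⟨c, s⟩, by
    have : Complex.normSq ⟨c, s⟩ = 1 := by rw [Complex.normSq_apply]; linarith
    simpa [Submonoid.unitSphere, Complex.norm_def] using this⟩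
  refine ⟨z, ?_⟩
  have hz : iota z = rot c s h := rfl
  rw [hz]
  obtain ⟨e0, -, -, e1, e2⟩ := ent_mul_rot x c s h
  have := inv_eq_of_trace (x * rot c s h) (by rw [e0, e1, e2]; linarith)
  rw [eq_inv_iff_mul_eq_one, mul_assoc, mul_assoc]
  have h2 : x * rot c s h * (x * rot c s h) = 1 := by
    nth_rewrite 1 [← this]; exact inv_mul_cancel _
  have h3 : rot c s h * (x * rot c s h * (x * rot c s h)) = rot c s h * 1 := by rw [h2]
  have h4 : rot c s h * (x * (rot c s h * x)) * rot c s h = 1 * rot c s h := by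
    simpa [mul_assoc] using h3
  exact mul_right_cancel h4

instance : SecondCountableTopology SO3 := by
  have : SecondCountableTopology (Matrix (Fin 3) (Fin 3) ℝ) :=
    inferInstanceAs (SecondCountableTopology (Fin 3 → Fin 3 → ℝ))
  exact TopologicalSpace.Subtype.secondCountableTopology _

theorem lower (r : ℕ) (hr : 0 < r) : 1 / (r : ℝ≥0∞) ^ 2 ≤ ms SO3 r :=
  le_ms iota iota_cont key r hr

end Pool.Agent.H617Z.Sym
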