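import Mathlib
import Pool.Agent.H617Z.SymAlg
import Pool.Agent.Helper36.RealizeSph
set_option autoImplicit false

/-! Measure estimates on `SO(3)`. -/

namespace Pool.Agent.H617Z.Sym

open MeasureTheory Set TopologicalSpace Measure Matrix Filter
open scoped ENNReal RealInnerProductSpace Topology
open Pool.Agent.Helper36

abbrev E3 := EuclideanSpace ℝ (Fin 3)

/-- the `j`-th column -/
noncomputable def col (j : Fin 3) (x : SO3) : E3 := WithLp.toLp 2 fun i => ent x i j

lemma inner_col (a : E3) (j : Fin 3) (x : SO3) :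
    ⟪a, col j x⟫ = a 0 * ent x 0 j + a 1 * ent x 1 j + a 2 * ent x 2 j := by
  simp [col, PiLp.inner_apply, Fin.sum_univ_three, mul_comm]

lemma norm_sq3 (a : E3) : ‖a‖ ^ 2 = a 0 ^ 2 + a 1 ^ 2 + a 2 ^ 2 := by
  rw [EuclideanSpace.norm_sq_eq]; simp [Fin.sum_univ_three]

lemma norm_col (j : Fin 3) (x : SO3) : ‖col j x‖ = 1 := by
  have h := col_orth x j j
  have h2 : ‖col j x‖ ^ 2 = 1 := by
    rw [norm_sq3]; simp only [col]; simp only [if_true] at h; nlinarith
  exact (pow_eq_one_iff_of_nonneg (norm_nonneg _) two_ne_zero).1 h2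

lemma ent_cont (i j : Fin 3) : Continuous fun x : SO3 => ent x i j := by
  exact (continuous_subtype_val (p := fun A => A ∈ specialOrthogonalGroup (Fin 3) ℝ)).matrix_elem i j

lemma col_cont (j : Fin 3) : Continuous (col j) := by
  unfold col
  refine (PiLp.continuous_toLp 2 _).comp (continuous_pi fun i => ent_cont i j)

/-- half-turn about an axis -/
noncomputable def half (n0 n1 n2 : ℝ) (h : n0 ^ 2 + n1 ^ 2 + n2 ^ 2 ≠ 0) : SO3 :=
  ⟨Matrix.of fun i j => 2 * (![n0, n1, n2] i * ![n0, n1, n2] j) / (n0 ^ 2 + n1 ^ 2 + n2 ^ 2) -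
      if i = j then 1 else 0, by
    rw [mem_specialOrthogonalGroup_iff, mem_orthogonalGroup_iff]
    constructor
    · ext i j
      fin_cases i <;> fin_cases j <;>
        simp [Matrix.mul_apply, Fin.sum_univ_three] <;> field_simp <;> ring
    · rw [det_fin_three]; simp; field_simp; ring⟩

lemma slab_eq (a b : E3) (ha : ‖a‖ = 1) (hb : ‖b‖ = 1) (t : ℝ) :
    haarProb SO3 {x | |⟪a, col 0 x⟫| ≤ t} = haarProb SO3 {x | |⟪b, col 0 x⟫| ≤ t} := by
  have ha2 := norm_sq3 a
  have hb2 := norm_sq3 b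
  rw [ha] at ha2
  rw [hb] at hb2
  by_cases h : (a 0 + b 0) ^ 2 + (a 1 + b 1) ^ 2 + (a 2 + b 2) ^ 2 = 0
  · congr 1
    ext x
    have e0 : a 0 = -b 0 := by nlinarith [sq_nonneg (a 0 + b 0), sq_nonneg (a 1 + b 1), sq_nonneg (a 2 + b 2)]
    have e1 : a 1 = -b 1 := by nlinarith [sq_nonneg (a 0 + b 0), sq_nonneg (a 1 + b 1), sq_nonneg (a 2 + b 2)]
    have e2 : a 2 = -b 2 := by nlinarith [sq_nonneg (a 0 + b 0), sq_nonneg (a 1 + b 1), sq_nonneg (a 2 + b 2)]
    simp only [mem_ofPred_eq, inner_col, e0, e1, e2]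
    rw [← abs_neg]
    congr! 2
    ring
  · rw [← measure_preimage_mul (haarProb SO3) (half _ _ _ h) {x | |⟪b, col 0 x⟫| ≤ t}]
    congr 1
    ext x
    simp only [mem_preimage, mem_ofPred_eq, inner_col, ent_mul]
    congr! 2
    simp [ent, half]
    field_simp
    have hs : (a 0 + b 0) ^ 2 + (a 1 + b 1) ^ 2 + (a 2 + b 2) ^ 2 =
        2 * (b 0 * (a 0 + b 0) + b 1 * (a 1 + b 1) + b 2 * (a 2 + b 2)) := by nlinarith
    linear_combination ((a 0 + b 0) * (x : Matrix (Fin 3) (Fin 3) ℝ) 0 0 +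
      (a 1 + b 1) * (x : Matrix (Fin 3) (Fin 3) ℝ) 1 0 +
      (a 2 + b 2) * (x : Matrix (Fin 3) (Fin 3) ℝ) 2 0) * hs

theorem slab : ∃ C : ℝ, 0 < C ∧ ∀ a : E3, ‖a‖ = 1 → ∀ t : ℝ, 0 ≤ t →
    (haarProb SO3).real {x | |⟪a, col 0 x⟫| ≤ t} ≤ C * t := by
  obtain ⟨C, hC, hslab⟩ := SphMeas.sph_slab (d := 3) (by norm_num)
  have := SphMeas.sph_prob (d := 3) (by norm_num)
  refine ⟨C, hC, fun a ha t ht => ?_⟩
  set S : Set (SO3 × E3) := {p | |⟪p.2, col 0 p.1⟫| ≤ t} with hS
  have hSm : MeasurableSet S := by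
    refine measurableSet_le (Continuous.measurable ?_) measurable_const
    have := col_cont 0
    fun_prop
  have h1 := Measure.prod_apply (μ := haarProb SO3) (ν := SphMeas.sph 3) hSm
  have h2 := Measure.prod_apply_symm (μ := haarProb SO3) (ν := SphMeas.sph 3) hSm
  have h3 : ∫⁻ y, haarProb SO3 ((fun x => (x, y)) ⁻¹' S) ∂(SphMeas.sph 3) =
      haarProb SO3 {x | |⟪a, col 0 x⟫| ≤ t} := by
    rw [lintegral_congr_ae (g := fun _ => haarProb SO3 {x | |⟪a, col 0 x⟫| ≤ t})]
    · simp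
    · filter_upwards [SphMeas.sph_ae (d := 3)] with b hb
      exact slab_eq b a hb ha t
  have h4 : ∫⁻ x, SphMeas.sph 3 (Prod.mk x ⁻¹' S) ∂(haarProb SO3) ≤ ENNReal.ofReal (C * t) := by
    calc _ ≤ ∫⁻ _ : SO3, ENNReal.ofReal (C * t) ∂(haarProb SO3) := by
          refine lintegral_mono fun x => ?_
          have h5 := hslab (col 0 x) (norm_col 0 x) t ht
          have e : Prod.mk x ⁻¹' S = {y | |⟪col 0 x, y⟫| ≤ t} := by
            ext y; simp [hS, real_inner_comm]
          rw [e]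
          exact (ENNReal.le_ofReal_iff_toReal_le (measure_ne_top _ _) (by positivity)).2 h5
      _ = _ := by simp
  rw [← h1, h2, h3] at h4
  exact ENNReal.toReal_le_of_le_ofReal (by positivity) h4

lemma null_W : haarProb SO3 {x | ent x 2 0 = 0} = 0 := by
  obtain ⟨C, hC, hslab⟩ := slab
  have h := hslab (EuclideanSpace.single 2 1) (by simp) 0 le_rfl
  have e : {x : SO3 | |⟪(EuclideanSpace.single 2 1 : E3), col 0 x⟫| ≤ 0} =
      {x | ent x 2 0 = 0} := by
    ext x; simp [inner_col]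
  rw [e, mul_zero] at h
  have h2 := le_antisymm h measureReal_nonneg
  rwa [measureReal_eq_zero_iff (measure_ne_top _ _)] at h2

lemma null_Z : haarProb SO3 {y | ent y 1 0 - ent y 0 1 = 0} = 0 := by
  set Z := {y : SO3 | ent y 1 0 - ent y 0 1 = 0} with hZ
  set W := {x : SO3 | ent x 2 0 = 0} with hW
  have hZm : MeasurableSet Z :=
    measurableSet_eq_fun ((ent_cont 1 0).sub (ent_cont 0 1)).measurable measurable_const
  have hWm : MeasurableSet W := measurableSet_eq_fun (ent_cont 2 0).measurable measurable_const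
  have hcs : ∀ n : ℕ, ((1 - (n : ℝ) ^ 2) / (1 + n ^ 2)) ^ 2 + (2 * n / (1 + n ^ 2)) ^ 2 = 1 := by
    intro n; field_simp; ring
  set r : ℕ → SO3 := fun n => rot _ _ (hcs n) with hr
  set F : ℕ → Set SO3 := fun n => (fun x => x * r n) ⁻¹' Z \ W with hF
  have hFm : ∀ n, MeasurableSet (F n) := fun n =>
    ((measurable_mul_const (r n)) hZm).diff hWm
  have hFμ : ∀ n, haarProb SO3 (F n) = haarProb SO3 Z := by
    intro n
    simp only [hF]
    rw [measure_sdiff_null null_W, measure_preimage_mul_right]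
  have hmem : ∀ n x, x ∈ F n → (1 - (n : ℝ) ^ 2) * (ent x 1 0 - ent x 0 1) +
      2 * n * (ent x 0 0 + ent x 1 1) = 0 := by
    intro n x hx
    have h1 : ent (x * r n) 1 0 - ent (x * r n) 0 1 = 0 := hx.1
    obtain ⟨-, e1, e2, -, -⟩ := ent_mul_rot x _ _ (hcs n)
    simp only [hr] at h1
    rw [e1, e2] at h1
    field_simp at h1
    linarith
  have hdisj : Pairwise (Function.onFun Disjoint F) := by
    intro n m hnm
    rw [Function.onFun, Set.disjoint_left]
    intro x hn hm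
    have h1 := hmem n x hn
    have h2 := hmem m x hm
    have hne : ((n : ℝ) - m) * (1 + n * m) ≠ 0 :=
      mul_ne_zero (sub_ne_zero.2 (by exact_mod_cast hnm)) (by positivity)
    have a1 : ent x 1 0 - ent x 0 1 = 0 := by
      apply mul_left_cancel₀ hne
      linear_combination (-(m : ℝ)) * h1 + n * h2
    have a2 : ent x 0 0 + ent x 1 1 = 0 := by
      apply mul_left_cancel₀ hne
      linear_combination (1 / 2 : ℝ) * ((1 - (m : ℝ) ^ 2) * h1 - (1 - (n : ℝ) ^ 2) * h2)
    have h3 := id2 x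
    rw [a1, a2] at h3
    have h4 : ent x 2 2 = -1 := by
      have : (1 + ent x 2 2) ^ 2 = 0 := by linarith
      have := pow_eq_zero_iff two_ne_zero |>.1 this
      linarith
    have h5 := row_orth x 2 2
    simp only [if_true, h4] at h5
    apply hn.2
    show ent x 2 0 = 0
    nlinarith [sq_nonneg (ent x 2 0), sq_nonneg (ent x 2 1)]
  have h := measure_iUnion (μ := haarProb SO3) hdisj hFm
  simp only [hFμ] at h
  by_contra hne
  rw [ENNReal.tsum_const_eq_top_of_ne_zero hne] at h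
  exact measure_ne_top _ _ h

lemma small_Z (δ : ℝ) (hδ : 0 < δ) : ∃ ω : ℝ, 0 < ω ∧
    (haarProb SO3).real {y | |ent y 1 0 - ent y 0 1| ≤ ω} ≤ δ := by
  set s : ℕ → Set SO3 := fun n => {y | |ent y 1 0 - ent y 0 1| ≤ 1 / ((n : ℝ) + 1)} with hs
  have hm : ∀ n, MeasurableSet (s n) := fun n =>
    measurableSet_le ((ent_cont 1 0).sub (ent_cont 0 1)).abs.measurable measurable_const
  have hanti : Antitone s := by
    intro n m hnm y hy
    simp only [hs, mem_ofPred_eq] at hy ⊢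
    refine le_trans hy ?_
    have : (n : ℝ) ≤ m := by exact_mod_cast hnm
    gcongr
  have h := tendsto_measure_iInter_atTop (μ := haarProb SO3)
    (fun n => (hm n).nullMeasurableSet) hanti ⟨0, measure_ne_top _ _⟩
  have e : ⋂ n, s n = {y | ent y 1 0 - ent y 0 1 = 0} := by
    ext y
    simp only [hs, mem_iInter, mem_ofPred_eq]
    constructor
    · intro h
      by_contra hne
      obtain ⟨n, hn⟩ := exists_nat_one_div_lt (abs_pos.2 hne)
      exact absurd (h n) (not_le.2 hn)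
    · intro h n; rw [h, abs_zero]; positivity
  rw [e, null_Z] at h
  have h2 := h.eventually (gt_mem_nhds (ENNReal.ofReal_pos.2 hδ))
  obtain ⟨n, hn⟩ := h2.exists
  exact ⟨1 / ((n : ℝ) + 1), by positivity, ENNReal.toReal_le_of_le_ofReal hδ.le hn.le⟩

end Pool.Agent.H617Z.Sym
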