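import Mathlib
import Pool.Agent.H617Z.SymSlab
set_option autoImplicit false

/-! A colouring of `SO(3)` whose monochromatic symmetric sets have measure about `1/4`. -/

namespace Pool.Agent.H617Z.Sym

open MeasureTheory Set TopologicalSpace Measure Matrix Filter
open scoped ENNReal RealInnerProductSpace Topology
open Pool.Agent.Helper36

lemma exists_group_net (R : ℕ) (hR : 0 < R) :
    ∃ rep : (Fin 3 × Fin 3 → Finset.Icc (-(R : ℤ)) R) → SO3,
      ∀ g : SO3, ∃ k, ∀ i j, |ent g i j - ent (rep k) i j| ≤ 1 / R := by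
  classical
  have hRpos : (0 : ℝ) < R := by exact_mod_cast hR
  have hmem : ∀ (g : SO3) (p : Fin 3 × Fin 3),
      ⌊(R : ℝ) * ent g p.1 p.2⌋ ∈ Finset.Icc (-(R : ℤ)) R := by
    intro g p
    have h := abs_le.1 (entry_le g p.1 p.2)
    rw [Finset.mem_Icc]
    constructor
    · rw [Int.le_floor]; push_cast; nlinarith [h.1]
    · have : (⌊(R : ℝ) * ent g p.1 p.2⌋ : ℝ) ≤ (R : ℤ) := by
        refine (Int.floor_le _).trans ?_
        push_cast; nlinarith [h.2]
      exact_mod_cast this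
  set code : SO3 → (Fin 3 × Fin 3 → Finset.Icc (-(R : ℤ)) R) := fun g p => ⟨_, hmem g p⟩ with hcode
  refine ⟨fun k => if h : ∃ g, code g = k then h.choose else 1, fun g => ⟨code g, fun i j => ?_⟩⟩
  have h : ∃ g', code g' = code g := ⟨g, rfl⟩
  simp only [dif_pos h]
  have h1 := congrArg Subtype.val (congrFun h.choose_spec (i, j))
  simp only [hcode] at h1
  have h2 := Int.abs_sub_lt_one_of_floor_eq_floor h1.symm
  rw [← mul_sub, abs_mul, abs_of_pos hRpos] at h2
  rw [le_div_iff₀ hRpos]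
  linarith

lemma sig_close (g g' x : SO3) (η : ℝ) (h : ∀ i j, |ent g i j - ent g' i j| ≤ η) (i j : Fin 3) :
    |ent (g * x⁻¹ * g) i j - ent (g' * x⁻¹ * g') i j| ≤ 6 * η := by
  have b : ∀ (y : SO3) (a c : Fin 3) (d e : Fin 3),
      |ent y a c * (ent g d e - ent g' d e)| ≤ η := by
    intro y a c d e
    rw [abs_mul]
    calc _ ≤ 1 * η := mul_le_mul (entry_le y a c) (h d e) (abs_nonneg _) zero_le_one
      _ = η := one_mul _
  have e : ent (g * x⁻¹ * g) i j - ent (g' * x⁻¹ * g') i j =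
      (ent (x⁻¹ * g) 0 j * (ent g i 0 - ent g' i 0) + ent (x⁻¹ * g) 1 j * (ent g i 1 - ent g' i 1) +
        ent (x⁻¹ * g) 2 j * (ent g i 2 - ent g' i 2)) +
      (ent (g' * x⁻¹) i 0 * (ent g 0 j - ent g' 0 j) +
        ent (g' * x⁻¹) i 1 * (ent g 1 j - ent g' 1 j) +
        ent (g' * x⁻¹) i 2 * (ent g 2 j - ent g' 2 j)) := by
    simp only [ent_mul]; ring
  rw [e]
  have := abs_le.1 (b (x⁻¹ * g) 0 j i 0)
  have := abs_le.1 (b (x⁻¹ * g) 1 j i 1)
  have := abs_le.1 (b (x⁻¹ * g) 2 j i 2)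
  have := abs_le.1 (b (g' * x⁻¹) i 0 0 j)
  have := abs_le.1 (b (g' * x⁻¹) i 1 1 j)
  have := abs_le.1 (b (g' * x⁻¹) i 2 2 j)
  rw [abs_le]
  constructor <;> linarith

lemma inner_close (a : E3) (ha : ‖a‖ = 1) (y z : SO3) (η : ℝ)
    (h : ∀ i j, |ent y i j - ent z i j| ≤ η) : |⟪a, col 0 y⟫ - ⟪a, col 0 z⟫| ≤ 3 * η := by
  have b : ∀ i, |a i * (ent y i 0 - ent z i 0)| ≤ η := by
    intro i
    rw [abs_mul]
    have : |a i| ≤ 1 := by
      have := PiLp.norm_apply_le a i
      rwa [ha, Real.norm_eq_abs] at this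
    calc _ ≤ 1 * η := mul_le_mul this (h i 0) (abs_nonneg _) zero_le_one
      _ = η := one_mul _
  have := abs_le.1 (b 0)
  have := abs_le.1 (b 1)
  have := abs_le.1 (b 2)
  rw [inner_col, inner_col, abs_le]
  constructor <;> linarith

lemma inner_col_mul (g y : SO3) : ⟪col 1 g, col 0 (g * y)⟫ = ent y 1 0 := by
  rw [inner_col]
  have h0 := col_orth g 1 0
  have h1 := col_orth g 1 1
  have h2 := col_orth g 1 2
  simp only [ent_mul, col]
  simp at h0 h1 h2
  linear_combination ent y 0 0 * h0 + ent y 1 0 * h1 + ent y 2 0 * h2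

theorem realize (δ : ℝ) (hδ : 0 < δ) :
    ∃ c : SO3 → Bool, Measurable c ∧ ∀ g : SO3, ∀ i,
      (haarProb SO3).real {x | c x = i ∧ c (g * x⁻¹ * g) = i} ≤ 1 / 4 + δ := by
  classical
  set μ := haarProb SO3 with hμ
  obtain ⟨C, hC, hslab⟩ := slab
  obtain ⟨ω, hω, hωZ⟩ := small_Z (δ / 8) (by positivity)
  set D := √((3 : ℕ) : ℝ) with hD
  have hDpos : 0 < D := Real.sqrt_pos.2 (by norm_num)
  set t := δ / 8 with ht
  have htpos : 0 < t := by positivity
  set γ := t ^ 2 / (32 * C * D) with hγ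
  have hγpos : 0 < γ := by positivity
  set K1 := 144 * C / δ with hK1
  have hK1pos : 0 < K1 := by positivity
  set K2 := 2 * (2 * K1 * 3 ^ 3 + 3) ^ 9 with hK2
  obtain ⟨R0, hR0⟩ := RealizeSph.exp_beats K2 γ hγpos 27
  obtain ⟨R1, hR1⟩ := exists_nat_gt (2 * D / ω)
  set R : ℕ := R0 + R1 + 1 with hRdef
  have hRpos : 0 < R := by omega
  have hRpos' : (0 : ℝ) < R := by exact_mod_cast hRpos
  have hR1' : (R1 : ℝ) ≤ R := by exact_mod_cast (by omega : R1 ≤ R)
  have hR1'' : (1 : ℝ) ≤ R := by exact_mod_cast hRpos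
  set ε := D / R with hε
  have hεpos : 0 < ε := by positivity
  have hεω : 2 * ε < ω := by
    rw [div_lt_iff₀ hω] at hR1
    have : 2 * D < R * ω := lt_of_lt_of_le hR1 (mul_le_mul_of_nonneg_right hR1' hω.le)
    rw [hε, ← mul_div_assoc, div_lt_iff₀ hRpos']
    linarith
  obtain ⟨N, hNcard, hN1, hN⟩ := RealizeSph.exists_net (d := 3) R hRpos
  set R' : ℕ := ⌈K1 * (2 * R + 1) ^ 3⌉₊ with hR'
  have hR'ge : K1 * (2 * R + 1) ^ 3 ≤ R' := Nat.le_ceil _
  have hR'pos' : (0 : ℝ) < R' := lt_of_lt_of_le (by positivity) hR'ge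
  have hR'pos : 0 < R' := by exact_mod_cast hR'pos'
  obtain ⟨rep, hrep⟩ := exists_group_net R' hR'pos
  set qq : SO3 → (N → Bool) := fun x => RealizeSph.q N (col 0 x) with hqq
  have hqm : Measurable qq := (RealizeSph.q_measurable N).comp (col_cont 0).measurable
  have hdiam : ∀ x y, qq x = qq y → ‖col 0 x - col 0 y‖ ≤ 2 * ε :=
    fun x y hxy => RealizeSph.q_diam hN (norm_col 0 x) (norm_col 0 y) hxy
  obtain ⟨c, hcc⟩ := RealizeAbs.realize_abs (μ := μ)
    (K := Fin 3 × Fin 3 → Finset.Icc (-(R' : ℤ)) R') hqm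
    (fun k x => rep k * x⁻¹ * rep k) (fun k => mp_sig _) (fun _ => 1 / 2)
    (fun _ => by norm_num) (fun _ => 1 / 2) measurable_const
    (Eventually.of_forall fun _ => by norm_num) 0 (Eventually.of_forall fun _ => by simp)
    (C * (2 * ε)) (δ / 8)
    (by
      intro j
      by_cases hj : ∃ y, qq y = j
      · obtain ⟨y, hyj⟩ := hj
        obtain ⟨a, ha1, ha2⟩ := RealizeSph.exists_perp (d := 3) (by norm_num) (col 0 y)
        refine le_trans (measureReal_mono ?_) (hslab a ha1 (2 * ε) (by positivity))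
        intro x hxj
        have h1 := hdiam x y (Eq.trans hxj hyj.symm)
        have h2 : ⟪a, col 0 x⟫ = ⟪a, col 0 x - col 0 y⟫ := by rw [inner_sub_right, ha2, sub_zero]
        show |⟪a, col 0 x⟫| ≤ 2 * ε
        rw [h2]
        refine (abs_real_inner_le_norm _ _).trans ?_
        rw [ha1, one_mul]; exact h1
      · have : qq ⁻¹' {j} = ∅ := by
          ext x; simp only [mem_preimage, mem_singleton_iff, mem_empty_iff_false, iff_false]
          exact fun h => hj ⟨x, h⟩
        rw [this, measureReal_empty]; positivity)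
    (by
      intro k
      refine le_trans ?_ hωZ
      have e := measure_preimage_mul μ (rep k)⁻¹ {y | |ent y 1 0 - ent y 0 1| ≤ ω}
      rw [measureReal_def, measureReal_def, ← e]
      refine ENNReal.toReal_mono (measure_ne_top _ _) (measure_mono ?_)
      intro x hx
      have h1 := hdiam _ _ hx
      show |ent ((rep k)⁻¹ * x) 1 0 - ent ((rep k)⁻¹ * x) 0 1| ≤ ω
      have a1 := inner_col_mul (rep k) ((rep k)⁻¹ * x)
      have a2 := inner_col_mul (rep k) ((rep k)⁻¹ * x)⁻¹
      rw [ent_inv] at a2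
      rw [← a1, ← a2, ← inner_sub_right]
      refine (abs_real_inner_le_norm _ _).trans ?_
      rw [norm_col, one_mul, mul_inv_cancel_left, _root_.mul_inv_rev, inv_inv, ← mul_assoc]
      linarith)
    (t * R / (16 * C * D)) t (by positivity)
    (by
      have e1 : (t * R / (16 * C * D)) ^ 2 * (4 * (C * (2 * ε))) = γ * R := by
        rw [hγ, hε]; field_simp; ring
      have e2 : t * R / (16 * C * D) * t = γ * R + γ * R := by
        rw [hγ]; field_simp; ring
      rw [e1, e2, Real.exp_add]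
      apply mul_lt_mul_of_pos_right _ (Real.exp_pos _)
      refine lt_of_le_of_lt ?_ (hR0 R (by omega))
      have c1 : (Fintype.card (Fin 3 × Fin 3 → Finset.Icc (-(R' : ℤ)) R') : ℝ) =
          (2 * R' + 1) ^ 9 := by
        have : (Finset.Icc (-(R' : ℤ)) R').card = 2 * R' + 1 := by
          rw [Int.card_Icc]; omega
        rw [Fintype.card_fun, Fintype.card_coe, this]
        simp
      have c2 : (2 * (R' : ℝ) + 1) ≤ (2 * K1 * 3 ^ 3 + 3) * R ^ 3 := by
        have c3 : (R' : ℝ) ≤ K1 * (2 * R + 1) ^ 3 + 1 := (Nat.ceil_lt_add_one (by positivity)).le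
        have c4 : ((2 * R + 1 : ℝ)) ^ 3 ≤ 3 ^ 3 * R ^ 3 := by
          rw [← mul_pow]
          exact pow_le_pow_left₀ (by positivity) (by linarith) 3
        have c5 : (1 : ℝ) ≤ (R : ℝ) ^ 3 := one_le_pow₀ hR1''
        have c6 := mul_le_mul_of_nonneg_left c4 hK1pos.le
        nlinarith
      have c7 : (2 * (R' : ℝ) + 1) ^ 9 ≤ (2 * K1 * 3 ^ 3 + 3) ^ 9 * (R : ℝ) ^ 27 := by
        rw [show 27 = 3 * 9 from rfl, pow_mul, ← mul_pow]
        exact pow_le_pow_left₀ (by positivity) c2 9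
      rw [hK2, c1]
      linarith)
  refine ⟨fun x => c (qq x), (Measurable.of_discrete (f := c)).comp hqm, ?_⟩
  intro g i
  obtain ⟨k0, hk0⟩ := hrep g
  set g' := rep k0 with hg'
  have hbad : μ.real {x | qq (g * x⁻¹ * g) ≠ qq (g' * x⁻¹ * g')} ≤ δ / 8 := by
    have hsub : μ.real {x | qq (g * x⁻¹ * g) ≠ qq (g' * x⁻¹ * g')} ≤
        μ.real (⋃ k ∈ N, (fun x => g * x⁻¹ * g) ⁻¹' {x | |⟪k, col 0 x⟫| ≤ 18 / R'}) := by
      refine measureReal_mono (fun x hxq => ?_) (measure_ne_top _ _)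
      have : ∃ k : N, qq (g * x⁻¹ * g) k ≠ qq (g' * x⁻¹ * g') k := by
        by_contra hcon
        push Not at hcon
        exact hxq (funext hcon)
      obtain ⟨k, hk⟩ := this
      simp only [mem_iUnion]
      refine ⟨k, k.2, ?_⟩
      show |⟪(k : E3), col 0 (g * x⁻¹ * g)⟫| ≤ 18 / R'
      have hk1 := hN1 k k.2
      have hdist := inner_close k hk1 _ _ _ (sig_close g g' x _ hk0)
      have e : 3 * (6 * (1 / (R' : ℝ))) = 18 / R' := by ring
      rw [e] at hdist
      simp only [hqq, RealizeSph.q, ne_eq, decide_eq_decide] at hk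
      rw [abs_le] at hdist ⊢
      by_cases hpos : 0 < ⟪(k : E3), col 0 (g * x⁻¹ * g)⟫
      · have : ¬ 0 < ⟪(k : E3), col 0 (g' * x⁻¹ * g')⟫ := fun h' => hk ⟨fun _ => h', fun _ => hpos⟩
        constructor <;> linarith
      · have : 0 < ⟪(k : E3), col 0 (g' * x⁻¹ * g')⟫ := by
          by_contra h'
          exact hk ⟨fun h'' => absurd h'' hpos, fun h'' => absurd h'' h'⟩
        constructor <;> linarith
    refine hsub.trans ((measureReal_biUnion_finset_le N _).trans ?_)
    calc ∑ k ∈ N, μ.real ((fun x => g * x⁻¹ * g) ⁻¹' {x | |⟪k, col 0 x⟫| ≤ 18 / R'})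
        ≤ ∑ k ∈ N, C * (18 / R') := by
          refine Finset.sum_le_sum fun k hk => ?_
          have hm : MeasurableSet {x : SO3 | |⟪k, col 0 x⟫| ≤ 18 / R'} := by
            refine measurableSet_le (Continuous.measurable ?_) measurable_const
            have := col_cont 0
            fun_prop
          rw [measureReal_def, (mp_sig g).measure_preimage hm.nullMeasurableSet]
          exact hslab k (hN1 k hk) _ (by positivity)
      _ = N.card * (C * (18 / R')) := by rw [Finset.sum_const, nsmul_eq_mul]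
      _ ≤ (2 * R + 1) ^ 3 * (C * (18 / R')) := by
          apply mul_le_mul_of_nonneg_right _ (by positivity)
          exact_mod_cast hNcard
      _ ≤ δ / 8 := by
          have e : (2 * (R : ℝ) + 1) ^ 3 * (C * (18 / R')) =
              (2 * (R : ℝ) + 1) ^ 3 * (18 * C) / R' := by ring
          rw [e, div_le_iff₀ hR'pos']
          have e2 := mul_le_mul_of_nonneg_left hR'ge (show 0 ≤ δ / 8 by linarith)
          refine le_trans (le_of_eq ?_) e2
          rw [hK1]; field_simp; ring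
  have hbase : μ.real {x | c (qq x) = i ∧ c (qq (g' * x⁻¹ * g')) = i} ≤ 1 / 4 + 2 * (δ / 8) := by
    have := hcc k0
    simp only [integral_const, probReal_univ, smul_eq_mul] at this
    cases i
    · have h1 := this.2
      linarith
    · have h1 := this.1
      linarith
  have hfin : μ.real {x | c (qq x) = i ∧ c (qq (g * x⁻¹ * g)) = i} ≤
      μ.real ({x | c (qq x) = i ∧ c (qq (g' * x⁻¹ * g')) = i} ∪
        {x | qq (g * x⁻¹ * g) ≠ qq (g' * x⁻¹ * g')}) := by
    refine measureReal_mono fun x hx => ?_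
    by_cases h' : qq (g * x⁻¹ * g) = qq (g' * x⁻¹ * g')
    · left
      refine ⟨hx.1, ?_⟩
      rw [← h']; exact hx.2
    · right; exact h'
  have hun := measureReal_union_le (μ := μ) {x | c (qq x) = i ∧ c (qq (g' * x⁻¹ * g')) = i}
    {x | qq (g * x⁻¹ * g) ≠ qq (g' * x⁻¹ * g')}
  linarith

theorem upper : ms SO3 2 ≤ 1 / 4 := by
  refine ENNReal.le_of_forall_pos_le_add fun δ hδ _ => ?_
  obtain ⟨c, hc, hcc⟩ := realize δ hδ
  apply sSup_le
  rintro ε ⟨-, hε⟩
  set χ : SO3 → Fin 2 := fun x => if c x = true then 1 else 0 with hχ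
  have hχm : Measurable χ :=
    Measurable.ite (hc (measurableSet_singleton true)) measurable_const measurable_const
  obtain ⟨B, -, ⟨i, hi⟩, ⟨g, hg⟩, hB⟩ := hε χ
    (fun i => (hχm (measurableSet_singleton i)).nullMeasurableSet)
  refine hB.trans ?_
  obtain ⟨b, hb⟩ : ∃ b : Bool, ∀ x, χ x = i → c x = b := by
    by_cases hi1 : i = 1
    · refine ⟨true, fun x hx => ?_⟩
      by_contra h
      rw [hχ] at hx
      simp only [if_neg h, hi1] at hx
      exact absurd hx (by decide)
    · refine ⟨false, fun x hx => ?_⟩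
      by_contra h
      have h' : c x = true := by simpa using h
      rw [hχ] at hx
      simp only [if_pos h'] at hx
      exact hi1 hx.symm
  have hsub : B ⊆ {x | c x = b ∧ c (g * x⁻¹ * g) = b} := by
    intro x hx
    refine ⟨hb x (hi x hx), hb _ (hi _ ?_)⟩
    rw [hg]
    exact ⟨x, hx, rfl⟩
  refine (measure_mono hsub).trans ?_
  have h2 := hcc g b
  rw [measureReal_def] at h2
  refine ((ENNReal.le_ofReal_iff_toReal_le (measure_ne_top _ _) (by positivity)).2 h2).trans ?_
  rw [ENNReal.ofReal_add (by norm_num) (by positivity), ENNReal.ofReal_coe_nnreal, one_div,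
    one_div, ENNReal.ofReal_inv_of_pos (by norm_num)]
  simp

theorem ms_SO3 : ms SO3 2 = 1 / 4 := by
  refine le_antisymm upper ?_
  have := lower 2 (by norm_num)
  norm_num at this ⊢
  exact this

end Pool.Agent.H617Z.Sym
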