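import Mathlib
set_option autoImplicit false

/-! The multivariate trace inequality with constant one. -/

namespace Pool.Agent.H617Z.TraceIneq

open Matrix
open scoped MatrixOrder ComplexOrder

variable {N d : Type*} [Fintype N] [Fintype d] [DecidableEq N] [DecidableEq d]

lemma re_trace_mul_nonneg {P Q : Matrix N N ℂ} (hP : P.PosSemidef) (hQ : Q.PosSemidef) :
    0 ≤ (P * Q).trace.re := by
  obtain ⟨B, rfl⟩ := CStarAlgebra.nonneg_iff_eq_star_mul_self.mp hQ.nonneg
  have h : (P * (star B * B)).trace = (B * P * Bᴴ).trace := by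
    rw [star_eq_conjTranspose, ← Matrix.mul_assoc, trace_mul_comm, Matrix.mul_assoc]
  rw [h]
  have := (hP.mul_mul_conjTranspose_same B).trace_nonneg
  exact (Complex.nonneg_iff.1 this).1

omit [DecidableEq N] in
lemma re_trace_conjTranspose (X : Matrix N N ℂ) : (Xᴴ).trace.re = X.trace.re := by
  rw [trace_conjTranspose]; simp

omit [DecidableEq N] in
/-- Duality between the trace norm and the operator norm, in the direction we need. -/
lemma dual (V : Matrix N d ℂ) (M : Matrix d N ℂ) (S : Matrix d d ℂ) (hS : S.PosSemidef)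
    (hSM : S * S = M * Mᴴ) (hV : (1 - Vᴴ * V).PosSemidef) :
    (V * M).trace.re ≤ S.trace.re := by
  apply le_of_forall_pos_le_add
  intro δ hδ
  set c : ℝ := (Fintype.card d : ℝ) + 1 with hc
  have hc0 : 0 < c := by positivity
  set ε : ℝ := δ / c with hε
  have hε0 : 0 < ε := by positivity
  set Se : Matrix d d ℂ := S + (ε : ℂ) • (1 : Matrix d d ℂ) with hSe
  have hpd : Se.PosDef := by
    have h1 : ((ε : ℂ) • (1 : Matrix d d ℂ)).PosDef :=
      PosDef.one.smul (by exact_mod_cast hε0)
    exact PosDef.posSemidef_add hS h1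
  have hu : IsUnit Se.det := (isUnit_iff_isUnit_det _).1 hpd.isUnit
  set R := Se⁻¹ with hR
  have hRpd : R.PosDef := hpd.inv
  have h1 : R * Se = 1 := nonsing_inv_mul _ hu
  have h2 : Se * R = 1 := mul_nonsing_inv _ hu
  have hSeH : Seᴴ = Se := hpd.isHermitian
  have hpos := (hRpd.posSemidef.conjTranspose_mul_mul_same (Se * Vᴴ - M)).trace_nonneg
  have hpos' := (Complex.nonneg_iff.1 hpos).1
  have e : (Se * Vᴴ - M)ᴴ * R * (Se * Vᴴ - M) =
      V * Se * Vᴴ - V * M - (V * M)ᴴ + Mᴴ * R * M := by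
    rw [conjTranspose_sub, conjTranspose_mul, conjTranspose_mul, conjTranspose_conjTranspose, hSeH]
    have a1 : V * Se * R = V := by rw [Matrix.mul_assoc, h2, Matrix.mul_one]
    have a2 : Mᴴ * R * (Se * Vᴴ) = Mᴴ * Vᴴ := by
      rw [Matrix.mul_assoc, ← Matrix.mul_assoc R, h1, Matrix.one_mul]
    rw [Matrix.sub_mul, a1, Matrix.mul_sub, Matrix.sub_mul, Matrix.sub_mul, a2,
      Matrix.mul_assoc V Se]
    abel
  rw [e] at hpos'
  simp only [trace_add, trace_sub, Complex.add_re, Complex.sub_re, re_trace_conjTranspose] at hpos'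
  have b1 : (V * Se * Vᴴ).trace.re ≤ S.trace.re + ε * Fintype.card d := by
    have := re_trace_mul_nonneg hpd.posSemidef hV
    rw [Matrix.mul_sub, Matrix.mul_one, trace_sub, Complex.sub_re] at this
    have e2 : (V * Se * Vᴴ).trace = (Se * (Vᴴ * V)).trace := by
      rw [Matrix.mul_assoc, trace_mul_comm, Matrix.mul_assoc]
    have e3 : Se.trace.re = S.trace.re + ε * Fintype.card d := by
      rw [hSe, trace_add, trace_smul, trace_one]; simp
    rw [e2]; linarith
  have b2 : (Mᴴ * R * M).trace.re ≤ S.trace.re := by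
    have e2 : (Mᴴ * R * M).trace = (R * (S * S)).trace := by
      rw [Matrix.mul_assoc, trace_mul_comm, Matrix.mul_assoc, hSM]
    have e3 : S = R * (S * S) + (ε : ℂ) • (R * S) := by
      calc S = R * Se * S := by rw [h1, Matrix.one_mul]
        _ = _ := by
          rw [hSe, Matrix.mul_add, Matrix.add_mul, Matrix.mul_assoc, Matrix.mul_smul,
            Matrix.mul_one, Matrix.smul_mul]
    have e4 : S.trace.re = (R * (S * S)).trace.re + ε * (R * S).trace.re := by
      conv_lhs => rw [e3]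
      rw [trace_add, trace_smul]; simp
    have := re_trace_mul_nonneg hRpd.posSemidef hS
    rw [e2, e4]; nlinarith
  have b3 : ε * Fintype.card d ≤ δ := by
    rw [hε, div_mul_eq_mul_div, div_le_iff₀ hc0, hc]; nlinarith
  linarith

/-- The core inequality. -/
lemma core (D Y : Matrix N N ℂ) (B : Matrix d N ℂ) (S : Matrix d d ℂ) (hD : D.PosSemidef)
    (hS : S.PosSemidef) (hSM : S * S = (B * D) * (B * D)ᴴ)
    (hY : 1 + Y + Yᴴ = Bᴴ * B) (h0 : (Y * D).trace = 0) :
    D.trace.re - S.trace.re ≤ 2 * (Yᴴ * (Y * D)).trace.re := by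
  have hunit : IsUnit (1 + Y) := by
    rw [← mulVec_injective_iff_isUnit]
    have key : ∀ v, (1 + Y) *ᵥ v = 0 → v = 0 := by
      intro v hv
      have hpd : ((1 : Matrix N N ℂ) + Bᴴ * B).PosDef :=
        PosDef.one.add_posSemidef (posSemidef_conjTranspose_mul_self B)
      by_contra hne
      have h1 := hpd.dotProduct_mulVec_pos hne
      have e : (1 : Matrix N N ℂ) + Bᴴ * B = (1 + Y) + (1 + Y)ᴴ := by
        rw [← hY, conjTranspose_add, conjTranspose_one]; abel
      rw [e, add_mulVec, hv, zero_add, dotProduct_mulVec, ← star_mulVec, hv] at h1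
      simp at h1
    intro v w hvw
    have := key (v - w) (by rw [mulVec_sub]; exact sub_eq_zero.2 hvw)
    exact sub_eq_zero.1 this
  have hu : IsUnit (1 + Y).det := (isUnit_iff_isUnit_det _).1 hunit
  set T := (1 + Y)⁻¹ with hT
  have h1 : T * (1 + Y) = 1 := nonsing_inv_mul _ hu
  have h2 : (1 + Y) * T = 1 := mul_nonsing_inv _ hu
  have h1' : (1 + Yᴴ) * Tᴴ = 1 := by
    have := congrArg conjTranspose h1
    rwa [conjTranspose_mul, conjTranspose_add, conjTranspose_one] at this
  have h2' : Tᴴ * (1 + Yᴴ) = 1 := by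
    have := congrArg conjTranspose h2
    rwa [conjTranspose_mul, conjTranspose_add, conjTranspose_one] at this
  obtain ⟨V, hV⟩ : ∃ V : Matrix N d ℂ, V = Tᴴ * Bᴴ := ⟨_, rfl⟩
  have hVV : 1 - V * Vᴴ = (Y * T)ᴴ * (Y * T) := by
    have a1 : V * Vᴴ = Tᴴ * (1 + Y + Yᴴ) * T := by
      rw [hV, conjTranspose_mul, conjTranspose_conjTranspose, conjTranspose_conjTranspose, hY]
      simp only [Matrix.mul_assoc]
    have a2 : (1 : Matrix N N ℂ) = (Tᴴ * (1 + Yᴴ)) * ((1 + Y) * T) := by
      rw [h2, h2', Matrix.mul_one]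
    rw [a1, conjTranspose_mul, sub_eq_iff_eq_add]
    refine a2.trans ?_
    noncomm_ring
  have hVc : (1 - Vᴴ * V).PosSemidef := by
    have a1 : 1 - Vᴴ * V = (1 - Vᴴ * V)ᴴ * (1 - Vᴴ * V) + Vᴴ * (1 - V * Vᴴ) * V := by
      rw [conjTranspose_sub, conjTranspose_one, conjTranspose_mul, conjTranspose_conjTranspose]
      simp only [Matrix.mul_sub, Matrix.sub_mul, Matrix.mul_one, Matrix.one_mul, Matrix.mul_assoc]
      abel
    rw [a1, hVV]
    exact (posSemidef_conjTranspose_mul_self _).add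
      ((posSemidef_conjTranspose_mul_self _).conjTranspose_mul_mul_same V)
  have hdual := dual V (B * D) S hS hSM hVc
  have hVB : V * B = 1 + Y - Yᴴ * Tᴴ * Y := by
    have a1 : V * B = Tᴴ * (1 + Yᴴ) + Tᴴ * Y := by
      rw [hV, Matrix.mul_assoc, ← hY]; noncomm_ring
    have a2 : Tᴴ * Y = ((1 + Yᴴ) * Tᴴ) * Y - Yᴴ * Tᴴ * Y := by noncomm_ring
    rw [a1, h2', a2, h1']; noncomm_ring
  have e1 : (V * (B * D)).trace = D.trace - (Yᴴ * Tᴴ * Y * D).trace := by
    rw [← Matrix.mul_assoc, hVB, Matrix.sub_mul, Matrix.add_mul, Matrix.one_mul, trace_sub,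
      trace_add, h0, add_zero]
  have hT4 : ((4 : ℂ) • (1 : Matrix N N ℂ) - T - Tᴴ).PosSemidef := by
    have a1 : T + Tᴴ = Tᴴ * T + (B * T)ᴴ * (B * T) := by
      have : T + Tᴴ = (Tᴴ * (1 + Yᴴ)) * T + Tᴴ * ((1 + Y) * T) := by
        rw [h2, h2', Matrix.one_mul, Matrix.mul_one]
      rw [this, conjTranspose_mul, Matrix.mul_assoc Tᴴ Bᴴ, ← Matrix.mul_assoc Bᴴ, ← hY]
      noncomm_ring
    have a2 : (4 : ℂ) • (1 : Matrix N N ℂ) - T - Tᴴ =
        (T - (2 : ℂ) • 1)ᴴ * (T - (2 : ℂ) • 1) + (B * T)ᴴ * (B * T) := by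
      have a3 : (B * T)ᴴ * (B * T) = T + Tᴴ - Tᴴ * T := by rw [a1]; abel
      rw [a3, conjTranspose_sub, conjTranspose_smul, conjTranspose_one]
      simp only [Matrix.mul_sub, Matrix.sub_mul, Matrix.mul_smul, Matrix.smul_mul, Matrix.mul_one,
        Matrix.one_mul, star_ofNat]
      module
    rw [a2]
    exact (posSemidef_conjTranspose_mul_self _).add (posSemidef_conjTranspose_mul_self _)
  have hfin := re_trace_mul_nonneg (hT4.conjTranspose_mul_mul_same Y) hD
  have e2 : Yᴴ * ((4 : ℂ) • (1 : Matrix N N ℂ) - T - Tᴴ) * Y * D =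
      (4 : ℂ) • (Yᴴ * (Y * D)) - Yᴴ * T * Y * D - Yᴴ * Tᴴ * Y * D := by
    simp only [Matrix.mul_sub, Matrix.sub_mul, Matrix.mul_smul, Matrix.smul_mul, Matrix.mul_one,
      Matrix.mul_assoc]
  have e3 : (Yᴴ * T * Y * D).trace.re = (Yᴴ * Tᴴ * Y * D).trace.re := by
    rw [← re_trace_conjTranspose]
    simp only [conjTranspose_mul, conjTranspose_conjTranspose, hD.isHermitian.eq]
    rw [trace_mul_comm]
    simp only [Matrix.mul_assoc]
  rw [e2, trace_sub, trace_sub, trace_smul] at hfin
  simp only [Complex.sub_re, smul_eq_mul, Complex.mul_re, Complex.re_ofNat, Complex.im_ofNat,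
    zero_mul, sub_zero] at hfin
  rw [e1, Complex.sub_re] at hdual
  linarith

/-- For a Hermitian matrix the trace norm is attained at a symmetry `1 - 2P`. -/
lemma exists_proj (H : Matrix d d ℂ) (hH : H.IsHermitian) :
    ∃ P : Matrix d d ℂ, Pᴴ = P ∧ P * P = P ∧
      (CFC.sqrt (Hᴴ * H)).trace = H.trace - 2 * (P * H).trace := by
  have hsa : IsSelfAdjoint H := hH
  have hc : ∀ f : ℝ → ℝ, ContinuousOn f (spectrum ℝ H) := fun f =>
    (Matrix.finite_real_spectrum (A := H)).continuousOn f
  set p : ℝ → ℝ := fun x => if x < 0 then 1 else 0 with hp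
  refine ⟨cfc p H, (cfc_predicate p H : IsSelfAdjoint _), ?_, ?_⟩
  · rw [← cfc_mul p p H (hc _) (hc _)]
    congr 1
    ext x
    simp only [hp]
    split_ifs <;> simp
  · have h1 : CFC.sqrt (Hᴴ * H) = cfc (fun x : ℝ => |x|) H := by
      apply CFC.sqrt_unique
      · rw [← cfc_mul _ _ H (hc _) (hc _), hH.eq]
        conv_rhs => rw [← cfc_id ℝ H hsa, ← cfc_mul _ _ H (hc _) (hc _)]
        congr 1
        ext x
        simp
      · exact cfc_nonneg fun x _ => abs_nonneg x
    have h2 : cfc (fun x : ℝ => |x|) H = H - (cfc p H * H + cfc p H * H) := by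
      have h3 : cfc p H * H = cfc (fun x => p x * id x) H := by
        rw [cfc_mul _ _ H (hc _) (hc _), cfc_id ℝ H hsa]
      have h4 : H - (cfc p H * H + cfc p H * H) =
          cfc (fun x => id x - (p x * id x + p x * id x)) H := by
        rw [cfc_sub _ _ H (hc _) (hc _), cfc_add H _ _ (hc _) (hc _), cfc_id ℝ H hsa, h3]
      rw [h4]
      congr 1
      ext x
      simp only [hp, id]
      split_ifs with h
      · rw [abs_of_neg h]; ring
      · rw [abs_of_nonneg (not_lt.1 h)]; ring
    rw [h1, h2, trace_sub, trace_add, two_mul]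

/-- The inequality, given a system of coordinate embeddings. -/
lemma blocks {ι : Type*} [Fintype ι] [DecidableEq ι] (E : ι → Matrix d N ℂ)
    (hE1 : ∀ j k, E j * (E k)ᴴ = if j = k then 1 else 0) (hE2 : ∑ j, (E j)ᴴ * E j = 1)
    (A : ι → Matrix d d ℂ) (hA : ∀ j, (A j).PosSemidef) (Q : ι → ι → Matrix d d ℂ)
    (hQ0 : ∀ j, Q j j = 0) (hQ1 : ∀ j k, j ≠ k → Q j k + Q k j = 1)
    (hQ2 : ∀ j k, (Q j k)ᴴ = Q j k) (hQ3 : ∀ j k, Q j k * Q j k = Q j k) :
    ∑ j, (A j).trace.re - (CFC.sqrt (∑ j, A j ^ 2)).trace.re ≤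
      2 * ∑ j, ∑ k, (Q j k * A j).trace.re := by
  have hmul : ∀ (j k : ι) (X : Matrix d N ℂ), E j * ((E k)ᴴ * X) = if j = k then X else 0 := by
    intro j k X
    rw [← Matrix.mul_assoc, hE1]
    split_ifs <;> simp
  have htr : ∀ (j k : ι) (X : Matrix d d ℂ),
      ((E k)ᴴ * (X * E j)).trace = if j = k then X.trace else 0 := by
    intro j k X
    rw [trace_mul_comm, Matrix.mul_assoc, hE1]
    split_ifs <;> simp
  set D : Matrix N N ℂ := ∑ j, (E j)ᴴ * (A j * E j) with hDdef
  set B : Matrix d N ℂ := ∑ j, E j with hB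
  set Y : Matrix N N ℂ := ∑ j, ∑ k, (E k)ᴴ * (Q j k * E j) with hYdef
  have hD : D.PosSemidef := by
    rw [hDdef]
    refine posSemidef_sum _ fun j _ => ?_
    rw [← Matrix.mul_assoc]
    exact (hA j).conjTranspose_mul_mul_same _
  have hED : ∀ j, E j * D = A j * E j := by
    intro j
    rw [hDdef, Matrix.mul_sum]
    simp only [hmul]
    simp
  have hBD : B * D = ∑ j, A j * E j := by
    rw [hB, Matrix.sum_mul]
    simp only [hED]
  have hsq : (∑ j, A j ^ 2).PosSemidef := by
    refine posSemidef_sum _ fun j _ => (hA j).pow 2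
  have hSM : CFC.sqrt (∑ j, A j ^ 2) * CFC.sqrt (∑ j, A j ^ 2) = (B * D) * (B * D)ᴴ := by
    rw [CFC.sqrt_mul_sqrt_self _ hsq.nonneg, hBD, conjTranspose_sum, Matrix.sum_mul]
    refine Finset.sum_congr rfl fun j _ => ?_
    rw [Matrix.mul_sum]
    have : ∀ k, A j * E j * (A k * E k)ᴴ = if j = k then A j ^ 2 else 0 := by
      intro k
      rw [conjTranspose_mul, (hA k).isHermitian.eq, Matrix.mul_assoc, ← Matrix.mul_assoc (E j),
        hE1]
      split_ifs with h
      · subst h; simp [sq]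
      · simp
    simp only [this]
    simp
  have hYH : Yᴴ = ∑ j, ∑ k, (E k)ᴴ * (Q k j * E j) := by
    rw [hYdef, conjTranspose_sum, Finset.sum_comm]
    refine Finset.sum_congr rfl fun j _ => ?_
    rw [conjTranspose_sum]
    refine Finset.sum_congr rfl fun k _ => ?_
    rw [conjTranspose_mul, conjTranspose_mul, conjTranspose_conjTranspose, hQ2, Matrix.mul_assoc]
  have hY : 1 + Y + Yᴴ = Bᴴ * B := by
    rw [hYH, hYdef, ← hE2, hB, conjTranspose_sum, Matrix.mul_sum, ← Finset.sum_add_distrib,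
      ← Finset.sum_add_distrib]
    refine Finset.sum_congr rfl fun j _ => ?_
    rw [Matrix.sum_mul, add_assoc, ← Finset.sum_add_distrib]
    have h1 : (E j)ᴴ * E j = ∑ k, if k = j then (E k)ᴴ * E j else 0 := by simp
    rw [h1, ← Finset.sum_add_distrib]
    refine Finset.sum_congr rfl fun k _ => ?_
    split_ifs with h
    · subst h; simp [hQ0]
    · rw [zero_add, ← Matrix.mul_add, ← Matrix.add_mul, hQ1 j k (Ne.symm h), Matrix.one_mul]
  have hYD : Y * D = ∑ j, ∑ k, (E k)ᴴ * ((Q j k * A j) * E j) := by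
    rw [hYdef, Matrix.sum_mul]
    refine Finset.sum_congr rfl fun j _ => ?_
    rw [Matrix.sum_mul]
    refine Finset.sum_congr rfl fun k _ => ?_
    simp only [Matrix.mul_assoc, hED]
  have h0 : (Y * D).trace = 0 := by
    rw [hYD, trace_sum]
    refine Finset.sum_eq_zero fun j _ => ?_
    rw [trace_sum]
    simp only [htr]
    simp [hQ0]
  have hEYD : ∀ k, E k * (Y * D) = ∑ j, (Q j k * A j) * E j := by
    intro k
    rw [hYD, Matrix.mul_sum]
    refine Finset.sum_congr rfl fun j _ => ?_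
    rw [Matrix.mul_sum]
    simp only [hmul]
    simp
  have hfin : (Yᴴ * (Y * D)).trace = ∑ j, ∑ k, (Q j k * A j).trace := by
    rw [hYH, Finset.sum_comm, Matrix.sum_mul, trace_sum]
    refine Finset.sum_congr rfl fun j _ => ?_
    rw [Matrix.sum_mul, trace_sum]
    refine Finset.sum_congr rfl fun k _ => ?_
    rw [Matrix.mul_assoc, Matrix.mul_assoc, hEYD, Matrix.mul_sum, Matrix.mul_sum, trace_sum]
    have : ∀ i, ((E j)ᴴ * (Q j k * (Q i k * A i * E i))).trace =
        if i = j then (Q j k * A j).trace else 0 := by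
      intro i
      rw [← Matrix.mul_assoc (Q j k), htr]
      split_ifs with h
      · subst h; rw [← Matrix.mul_assoc, hQ3]
      · rfl
    simp only [this]
    simp
  have hDt : D.trace = ∑ j, (A j).trace := by
    rw [hDdef, trace_sum]
    simp only [htr]
    simp
  have := core D Y B _ hD (CFC.sqrt_nonneg _).posSemidef hSM hY h0
  rw [hDt, hfin] at this
  simpa only [Complex.re_sum] using this

theorem main (n m : ℕ) (A : Fin n → Matrix (Fin m) (Fin m) ℂ) (hA : ∀ j, (A j).PosSemidef) :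
    ∑ j, ∑ k with j < k,
        ((CFC.sqrt ((A j - A k)ᴴ * (A j - A k))).trace.re - (A j + A k).trace.re) ≤
      (CFC.sqrt (∑ j, A j ^ 2)).trace.re - ∑ j, (A j).trace.re := by
  have hP := fun j k => exists_proj (A j - A k) ((hA j).isHermitian.sub (hA k).isHermitian)
  choose P hP1 hP2 hP3 using hP
  set Q : Fin n → Fin n → Matrix (Fin m) (Fin m) ℂ := fun j k =>
    if j < k then P j k else if k < j then 1 - P k j else 0 with hQ
  set E : Fin n → Matrix (Fin m) (Fin n × Fin m) ℂ := fun j =>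
    Matrix.of fun a x => if x = (j, a) then 1 else 0 with hE
  have h := blocks E ?_ ?_ A hA Q ?_ ?_ ?_ ?_
  · have e1 : ∑ j, ∑ k, (Q j k * A j).trace.re =
        ∑ j, ∑ k with j < k, ((P j k * A j).trace.re + ((1 - P j k) * A k).trace.re) := by
      have e2 : ∀ j k, (Q j k * A j).trace.re = (if j < k then (P j k * A j).trace.re else 0) +
          (if k < j then ((1 - P k j) * A j).trace.re else 0) := by
        intro j k
        simp only [hQ]
        rcases lt_trichotomy j k with h | h | h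
        · simp [h, not_lt.2 h.le]
        · simp [h]
        · simp [h, not_lt.2 h.le]
      simp only [e2, Finset.sum_add_distrib, Finset.sum_filter]
      congr 1
      rw [Finset.sum_comm]
    have e3 : ∑ j, ∑ k with j < k,
        ((CFC.sqrt ((A j - A k)ᴴ * (A j - A k))).trace.re - (A j + A k).trace.re) =
        -(2 * ∑ j, ∑ k with j < k, ((P j k * A j).trace.re + ((1 - P j k) * A k).trace.re)) := by
      rw [Finset.mul_sum, ← Finset.sum_neg_distrib]
      refine Finset.sum_congr rfl fun j _ => ?_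
      rw [Finset.mul_sum, ← Finset.sum_neg_distrib]
      refine Finset.sum_congr rfl fun k _ => ?_
      rw [hP3]
      simp only [Matrix.mul_sub, Matrix.sub_mul, Matrix.one_mul, trace_sub, trace_add,
        Complex.sub_re, Complex.add_re, Complex.mul_re, Complex.re_ofNat, Complex.im_ofNat]
      ring
    rw [e3, ← e1]
    linarith
  · intro j k
    ext a b
    simp only [hE, Matrix.mul_apply, conjTranspose_apply, of_apply]
    by_cases hjk : j = k
    · subst hjk
      by_cases hab : a = b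
      · subst hab; simp
      · simp [Ne.symm hab, one_apply_ne hab]
    · simp [hjk, Ne.symm hjk]
  · ext ⟨i, a⟩ ⟨k, b⟩
    simp only [hE, Matrix.sum_apply, Matrix.mul_apply, conjTranspose_apply, of_apply, one_apply]
    by_cases hik : i = k
    · subst hik
      by_cases hab : a = b
      · subst hab
        simp [ite_and, Finset.sum_ite_eq]
      · simp [hab, ite_and, Finset.sum_ite_eq]
    · simp [hik, ite_and, Finset.sum_ite_eq]
  · intro j; simp [hQ]
  · intro j k hjk
    simp only [hQ]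
    rcases lt_or_gt_of_ne hjk with h | h
    · simp [h, not_lt.2 h.le]
    · simp [h, not_lt.2 h.le]
  · intro j k
    simp only [hQ]
    split_ifs
    · exact hP1 j k
    · rw [conjTranspose_sub, conjTranspose_one, hP1]
    · simp
  · intro j k
    simp only [hQ]
    split_ifs
    · exact hP2 j k
    · simp only [Matrix.mul_sub, Matrix.sub_mul, Matrix.one_mul, Matrix.mul_one, hP2]; abel
    · simp

end Pool.Agent.H617Z.TraceIneq
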